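import Pool.Agent.N650.PB.Clu

/-!
# Bounded clusters of squarefree congruent numbers in the neighbourhoods of every squarefree number ≡ 5, 6, 7 mod 8

Let `m ≡ 5, 6, 7 mod 8` be squarefree and let `N` be the set of the squarefree congruent numbers `n ≡ m mod 8` with `n = m n'`,
`n' ≡ 1 mod M`, and `P_k(n) - P_k(m)` within `ε` of an integer for finitely many given real polynomials `P_k`. For every `J`
there are `c > 0` and `C` such that for all large `X` at least `c X ^ (1/4)` of the `n ≤ X` in `N` have at least `J` members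
of `N` in `[n, n + C]`.

The numbers are `n_j = m (x ^ 4 - s ^ 4 j ^ 4 m ^ 2)`, `j = 1, …, J`, with the same `x ≡ 1 mod s ^ 2`. First `s`, a multiple
of a number which depends on the number of the polynomials, their degree, `ε`, `J`, `m` and `M` only, is chosen with
`P_k(m - s ^ 4 j ^ 4 m ^ 3)` near `P_k(m)` modulo `1` for all `j`; then the `x` with `P_k(n_j)` near
`P_k(m - s ^ 4 j ^ 4 m ^ 3)` modulo `1` for all `j` and `k` have a positive lower density, with a bound which does not depend
on `s` (theorem of van der Waerden and finite differences), and an elementary sieve shows that all `n_j` are squarefree for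
more than half of these `x`.
-/

set_option autoImplicit false

namespace Pool.Agent.Results.MP_8efaaa_nt.ClustersNearEveryNumber

open Pool.Agent.N650.PB (Near clusters)
open Polynomial

/-- **Bounded clusters of squarefree congruent numbers near every squarefree number ≡ 5, 6, 7 mod 8.** Let `m ≡ 5, 6, 7 mod 8` be a
squarefree natural number, let `P_k` be finitely many real polynomials, `ε > 0`, `M ≥ 1` and `J ≥ 1`. Then there are `c > 0`,
`C` and `X₀` such that for all `X ≥ X₀` there are at least `c X ^ (1/4)` natural numbers `n ≤ X` with `Near P ε m M n` (that is,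
`n` is a squarefree congruent number, `n ≡ m mod 8`, `n = m n'`, `n' ≡ 1 mod M`, and `P_k(n) - P_k(m)` is within `ε` of an
integer for all `k`) for which `[n, n + C]` contains at least `J` numbers of the same kind. -/
theorem result (m : ℕ) (hm : Squarefree m) (hm8 : m % 8 = 5 ∨ m % 8 = 6 ∨ m % 8 = 7) (K : Type) [Finite K] (P : K → ℝ[X])
    (ε : ℝ) (hε : 0 < ε) (M : ℕ) (hM : 1 ≤ M) (J : ℕ) (hJ : 1 ≤ J) :
    ∃ c : ℝ, 0 < c ∧ ∃ (C : ℕ) (X₀ : ℝ), ∀ X : ℝ, X₀ ≤ X →
      c * X ^ (1 / 4 : ℝ) ≤ (({n : ℕ | (n : ℝ) ≤ X ∧ Near P ε m M n ∧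
        J ≤ {n' : ℕ | n ≤ n' ∧ n' ≤ n + C ∧ Near P ε m M n'}.ncard}.ncard : ℕ) : ℝ) := by
  have _ := hm8
  exact clusters K P hε hm hM J hJ

end Pool.Agent.Results.MP_8efaaa_nt.ClustersNearEveryNumber
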