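import Pool.Agent.N650.PB.Fin2

/-!
# Squarefree congruent numbers in the neighbourhoods of every squarefree number ≡ 5, 6, 7 mod 8
# given by congruences and real polynomials

Every squarefree `m ≡ 5, 6, 7 mod 8` is a limit of squarefree congruent numbers for the topology generated by the congruences and
by the values modulo `1` of all real polynomials: for all real polynomials `P_k` (finitely many, with arbitrary coefficients),
all `ε > 0`, `η > 0` and all `M ≥ 1` there are at least `c X ^ (1/2 - η)` squarefree congruent numbers `n ≤ X` with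
`n ≡ m mod 8`, `n = m n'`, `n' ≡ 1 mod M`, for which all `P_k(n) - P_k(m)` are within `ε` of an integer.

The numbers are `n = m q (x ^ 4 - s ^ 4 m ^ 2 q ^ 2)`, `q = 1 + s y`, `x = 1 + s w`. First `s`, a multiple of a number which
depends on the number of the polynomials, their degree, `ε`, `m` and `M` only, is chosen with `P_k(m - s ^ 4 m ^ 3)` near
`P_k(m)` modulo `1`. The `y` with `P_k(m q (1 - s ^ 4 m ^ 2 q ^ 2))` near `P_k(m - s ^ 4 m ^ 3)` modulo `1`, and for each
of them the `w` with `P_k(n)` near `P_k(m q (1 - s ^ 4 m ^ 2 q ^ 2))` modulo `1`, have a positive lower density with a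
bound which does not depend on `s`. All three steps use the theorem of van der Waerden (from the theorem of Hales and
Jewett) and finite differences. An elementary sieve in two variables shows that `n` is squarefree for more than half of the
pairs, and `n` has few representations since `q` divides `n`.
-/

set_option autoImplicit false

namespace Pool.Agent.Results.MP_8efaaa_nt.PolynomialBohrNeighbourhoods

open Pool.Agent.N650.PB (Congruent NearInt main_X)
open Polynomial

/-- **Every squarefree number ≡ 5, 6, 7 mod 8 is a limit of squarefree congruent numbers for all real polynomials.** Let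
`m ≡ 5, 6, 7 mod 8` be a squarefree natural number, let `P_k` be finitely many real polynomials, `ε > 0`, `η > 0` and `M ≥ 1`.
Then there are `c > 0` and `X₀` such that for all `X ≥ X₀` at least `c X ^ (1/2 - η)` natural numbers `n ≤ X` are squarefree and
congruent (`x ^ 2 + n y ^ 2` and `x ^ 2 - n y ^ 2` are squares of positive integers for some positive integers `x`, `y`), with
`n ≡ m mod 8`, `n = m n'`, `n' ≡ 1 mod M`, and `P_k(n) - P_k(m)` within `ε` of an integer for all `k`. -/
theorem result (m : ℕ) (hm : Squarefree m) (hm8 : m % 8 = 5 ∨ m % 8 = 6 ∨ m % 8 = 7) (K : Type) [Finite K] (P : K → ℝ[X])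
    (ε : ℝ) (hε : 0 < ε) (M : ℕ) (hM : 1 ≤ M) (η : ℝ) (hη : 0 < η) :
    ∃ c : ℝ, 0 < c ∧ ∃ X₀ : ℝ, ∀ X : ℝ, X₀ ≤ X →
      c * X ^ (1 / 2 - η : ℝ) ≤ (({n : ℕ | (n : ℝ) ≤ X ∧ Squarefree n ∧ Congruent n ∧ n ≡ m [MOD 8] ∧
        (∃ n' : ℕ, n = m * n' ∧ n' ≡ 1 [MOD M]) ∧
        ∀ k, NearInt ε ((P k).eval (n : ℝ) - (P k).eval (m : ℝ))}.ncard : ℕ) : ℝ) := by
  have _ := hm8
  exact main_X K P hε hm hM hη

end Pool.Agent.Results.MP_8efaaa_nt.PolynomialBohrNeighbourhoods
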